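import Mathlib
import Pool.Agent.Q33.GP.VC

/-!
# When the electrification of a graph product of finite groups is a quasi-line

The graph product `GProd Γ H` is the quotient of the free product of the groups `H v` by the
relations that `H u` and `H v` commute for adjacent `u`, `v`; `sub Γ H Λ` is the subgroup
generated by the vertex groups of `Λ`.
-/

namespace Pool.Agent.Results.MP_7fb950_al.QuasiLine

open Pool.Agent.Y33.GP Q33.GP

section

variable {V : Type} (Γ : SimpleGraph V)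

/-- The vertices `a`, `b`, `c`, `d`, in this cyclic order, form an induced square of `Γ`. -/
def IsInducedSquare (a b c d : V) : Prop :=
  Γ.Adj a b ∧ Γ.Adj b c ∧ Γ.Adj c d ∧ Γ.Adj d a ∧ a ≠ c ∧ b ≠ d ∧ ¬ Γ.Adj a c ∧ ¬ Γ.Adj b d

/-- `Λ` is square-complete: every induced square with two opposite vertices in `Λ` has all four
vertices in `Λ`. -/
def SquareComplete (Λ : Set V) : Prop :=
  ∀ a b c d, IsInducedSquare Γ a b c d → a ∈ Λ → c ∈ Λ → b ∈ Λ ∧ d ∈ Λ

/-- `Λ` contains an induced square. -/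
def ContainsSquare (Λ : Set V) : Prop :=
  ∃ a b c d, IsInducedSquare Γ a b c d ∧ a ∈ Λ ∧ b ∈ Λ ∧ c ∈ Λ ∧ d ∈ Λ

/-- `Λ` is a minsquare subgraph: minimal among the square-complete subgraphs containing at least
one induced square. -/
def IsMinsquare (Λ : Set V) : Prop :=
  SquareComplete Γ Λ ∧ ContainsSquare Γ Λ ∧
    ∀ Λ' ⊆ Λ, SquareComplete Γ Λ' → ContainsSquare Γ Λ' → Λ' = Λ

variable (H : V → Type) [∀ v, Group (H v)]

/-- The generating set of the electrification: the vertex groups and the subgroups generated by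
the minsquare subgraphs. -/
noncomputable def genSet : Set (GProd Γ H) :=
  {x | (∃ v, x ∈ (inj Γ H v).range) ∨ ∃ Λ, IsMinsquare Γ Λ ∧ x ∈ sub Γ H Λ}

/-- The electrification: the Cayley graph of the graph product with respect to `genSet`. -/
noncomputable def electrification : SimpleGraph (GProd Γ H) := cayley (genSet Γ H)

/-- The family of subgraphs whose subgroups make up the generating set. -/
def fam : Set (Set V) := {Λ | (∃ v, Λ = {v}) ∨ IsMinsquare Γ Λ}

variable {Γ H}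

theorem inj_mem_genSet (v : V) (a : H v) : inj Γ H v a ∈ genSet Γ H := Or.inl ⟨v, a, rfl⟩

theorem mem_fam {s : GProd Γ H} (hs : s ∈ genSet Γ H) : ∃ Λ ∈ fam Γ, s ∈ sub Γ H Λ := by
  rcases hs with ⟨v, a, rfl⟩ | ⟨Λ, hΛ, hs⟩
  · exact ⟨{v}, Or.inl ⟨v, rfl⟩, inj_mem_sub Γ H (Λ := {v}) (Set.mem_singleton v) a⟩
  · exact ⟨Λ, Or.inr hΛ, hs⟩

variable [Finite V] [∀ v, Finite (H v)]

theorem exists_NP (h : IsQuasiLine (electrification Γ H)) : ∃ u v, NP Γ H u v := by
  by_contra hcon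
  push Not at hcon
  refine bounded_of (Γ := Γ) (H := H) inj_mem_genSet (Λ := ∅) ?_ ?_ h
  · rintro x ⟨y, hy⟩
    exact absurd hy (hcon x y)
  · intro x hx
    right
    unfold sub at hx
    simpa using hx

theorem not_G1_subset (h : IsQuasiLine (electrification Γ H)) :
    ∀ Λ ∈ fam Γ, ¬ G1 Γ H ⊆ Λ := by
  rintro Λ (⟨v, rfl⟩ | hΛ) hsub
  · obtain ⟨x, y, hxy⟩ := exists_NP h
    have h1 : x = v := hsub ⟨y, hxy⟩
    have h2 : y = v := hsub ⟨x, hxy.symm⟩
    exact hxy.1 (h1.trans h2.symm)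
  · exact bounded_of (Γ := Γ) (H := H) inj_mem_genSet hsub
      (fun x hx => Or.inl (Or.inr ⟨Λ, hΛ, hx⟩)) h

theorem no_pair (h : IsQuasiLine (electrification Γ H)) (x y : V) (hx : x ∈ G1 Γ H)
    (hy : y ∈ G1 Γ H) (hxy : ¬ (KG Γ H).Reachable x y) :
    ∀ Λ ∈ fam Γ, ∀ u v, NP Γ H u v → ¬ (u ∈ Λ ∧ v ∈ Λ) := by
  rintro Λ hΛ u v huv ⟨hu, hv⟩
  have hfam := hΛ
  rcases hΛ with ⟨w, rfl⟩ | hΛ
  · exact huv.1 (Eq.trans hu (Eq.symm hv))
  · apply not_G1_subset h Λ hfam
    -- squares from pairs in distinct components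
    have sq : ∀ p q r s, NP Γ H p q → NP Γ H r s → ¬ (KG Γ H).Reachable p r →
        p ∈ Λ → q ∈ Λ → r ∈ Λ ∧ s ∈ Λ := by
      intro p q r s hpq hrs hpr hp hq
      have hrpq : (KG Γ H).Reachable p q := SimpleGraph.Adj.reachable (G := KG Γ H) hpq
      have hrrs : (KG Γ H).Reachable r s := SimpleGraph.Adj.reachable (G := KG Γ H) hrs
      have adj : ∀ a b, (KG Γ H).Reachable p a → (KG Γ H).Reachable r b →
          Nontrivial (H a) → Nontrivial (H b) → Γ.Adj a b := by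
        intro a b ha hb na nb
        by_contra hn
        apply hpr
        have hab : a ≠ b := by
          rintro rfl
          exact hpr (ha.trans hb.symm)
        exact ha.trans ((SimpleGraph.Adj.reachable (G := KG Γ H) ⟨hab, hn, na, nb⟩).trans hb.symm)
      have e1 := adj p r SimpleGraph.Reachable.rfl SimpleGraph.Reachable.rfl hpq.2.2.1 hrs.2.2.1
      have e2 := adj q r hrpq SimpleGraph.Reachable.rfl hpq.2.2.2 hrs.2.2.1
      have e3 := adj q s hrpq hrrs hpq.2.2.2 hrs.2.2.2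
      have e4 := adj p s SimpleGraph.Reachable.rfl hrrs hpq.2.2.1 hrs.2.2.2
      exact hΛ.1 p r q s ⟨e1, e2.symm, e3, e4.symm, hpq.1, hrs.1, hpq.2.1, hrs.2.1⟩ hp hq
    obtain ⟨z, hz, huz⟩ : ∃ z ∈ G1 Γ H, ¬ (KG Γ H).Reachable u z := by
      by_cases h1 : (KG Γ H).Reachable u x
      · refine ⟨y, hy, fun h2 => hxy (h1.symm.trans h2)⟩
      · exact ⟨x, hx, h1⟩
    obtain ⟨z', hzz'⟩ := hz
    have hzΛ := sq u v z z' huv hzz' huz hu hv
    rintro t ⟨t', htt'⟩
    by_cases ht : (KG Γ H).Reachable u t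
    · exact (sq z z' t t' hzz' htt' (fun h => huz (ht.trans h.symm)) hzΛ.1 hzΛ.2).1
    · exact (sq u v t t' huv htt' ht hu hv).1

end

/-- **Main theorem.** Let `Γ` be a finite graph and `H` a family of finite groups.

(1) The electrification is a quasi-line if and only if there are two distinct nonadjacent vertices
`u`, `v` with groups of order two, all other pairs of distinct vertices with nontrivial groups are
adjacent, and no minsquare subgraph contains both `u` and `v`.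

(2) If all vertex groups are nontrivial, the electrification is a quasi-line if and only if the
graph product is infinite and virtually cyclic. -/
theorem result {V : Type} [Finite V] (Γ : SimpleGraph V) (H : V → Type) [∀ v, Group (H v)]
    [∀ v, Finite (H v)] :
    (IsQuasiLine (electrification Γ H) ↔
      ∃ u v, u ≠ v ∧ ¬ Γ.Adj u v ∧ Nat.card (H u) = 2 ∧ Nat.card (H v) = 2 ∧
        (∀ x y, x ≠ y → ¬ Γ.Adj x y → Nontrivial (H x) → Nontrivial (H y) →
          (x = u ∧ y = v) ∨ (x = v ∧ y = u)) ∧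
        ∀ Λ, IsMinsquare Γ Λ → ¬ (u ∈ Λ ∧ v ∈ Λ)) ∧
    ((∀ v, Nontrivial (H v)) →
      (IsQuasiLine (electrification Γ H) ↔
        Infinite (GProd Γ H) ∧ IsVirtuallyCyclic (GProd Γ H))) := by
  have nt : ∀ w, Nat.card (H w) = 2 → Nontrivial (H w) := by
    intro w hw
    exact Finite.one_lt_card_iff_nontrivial.mp (by omega)
  -- forward direction
  have fwd : IsQuasiLine (electrification Γ H) → ∃ u v, NP Γ H u v ∧ Nat.card (H u) = 2 ∧
      Nat.card (H v) = 2 ∧ (∀ x y, NP Γ H x y → (x = u ∧ y = v) ∨ (x = v ∧ y = u)) ∧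
      ∀ Λ, IsMinsquare Γ Λ → ¬ (u ∈ Λ ∧ v ∈ Λ) := by
    intro h
    obtain ⟨u, v, huv, hu, hv, huniq⟩ := unique_pair (Γ := Γ) (H := H) inj_mem_genSet
      (fun s hs => mem_fam hs) (not_G1_subset h) (no_pair h) (exists_NP h) h
    refine ⟨u, v, huv, hu, hv, huniq, ?_⟩
    rintro Λ hΛ ⟨h1, h2⟩
    apply not_G1_subset h Λ (Or.inr hΛ)
    rintro x ⟨y, hxy⟩
    rcases huniq x y hxy with ⟨rfl, rfl⟩ | ⟨rfl, rfl⟩
    · exact h1
    · exact h2
  -- backward direction
  have bwd : (∃ u v, NP Γ H u v ∧ Nat.card (H u) = 2 ∧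
      Nat.card (H v) = 2 ∧ (∀ x y, NP Γ H x y → (x = u ∧ y = v) ∨ (x = v ∧ y = u)) ∧
      ∀ Λ, IsMinsquare Γ Λ → ¬ (u ∈ Λ ∧ v ∈ Λ)) → IsQuasiLine (electrification Γ H) := by
    rintro ⟨u, v, huv, hu, hv, huniq, hmin⟩
    obtain ⟨c, hc, hinf⟩ := vc_of_unique huv hu hv huniq
    refine quasiLine_of_virtuallyCyclic ?_ (gen_top inj_mem_genSet) c hc hinf
    have h1 : genSet Γ H ⊆ (⋃ v : V, Set.range (inj Γ H v)) ∪
        ⋃ Λ ∈ {Λ : Set V | IsMinsquare Γ Λ}, (sub Γ H Λ : Set (GProd Γ H)) := by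
      rintro x (⟨w, a, rfl⟩ | ⟨Λ, hΛ, hx⟩)
      · exact Or.inl (Set.mem_iUnion.mpr ⟨w, a, rfl⟩)
      · exact Or.inr (Set.mem_biUnion (show Λ ∈ {Λ : Set V | IsMinsquare Γ Λ} from hΛ) hx)
    refine Set.Finite.subset (Set.Finite.union ?_ ?_) h1
    · exact Set.finite_iUnion fun w => Set.finite_range _
    · refine Set.Finite.biUnion (Set.toFinite _) ?_
      intro Λ hΛ
      apply finite_sub
      intro x hx y hy hxy
      apply hmin Λ hΛ
      rcases huniq x y hxy with ⟨rfl, rfl⟩ | ⟨rfl, rfl⟩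
      · exact ⟨hx, hy⟩
      · exact ⟨hy, hx⟩
  refine ⟨⟨?_, ?_⟩, ?_⟩
  · intro h
    obtain ⟨u, v, huv, hu, hv, huniq, hmin⟩ := fwd h
    exact ⟨u, v, huv.1, huv.2.1, hu, hv,
      fun x y h1 h2 h3 h4 => huniq x y ⟨h1, h2, h3, h4⟩, hmin⟩
  · rintro ⟨u, v, h1, h2, hu, hv, huniq, hmin⟩
    exact bwd ⟨u, v, ⟨h1, h2, nt u hu, nt v hv⟩, hu, hv,
      fun x y h => huniq x y h.1 h.2.1 h.2.2.1 h.2.2.2, hmin⟩
  · intro hnt
    constructor
    · intro h
      obtain ⟨u, v, huv, hu, hv, huniq, _⟩ := fwd h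
      obtain ⟨c, hc, hinf⟩ := vc_of_unique huv hu hv huniq
      refine ⟨?_, c, hc⟩
      have : Function.Injective (fun n : ℤ => c ^ n) := by
        intro a b hab
        have h1 : c ^ (a - b) = 1 := by
          rw [zpow_sub]
          change c ^ a = c ^ b at hab
          rw [hab, mul_inv_cancel]
        have := hinf _ h1
        omega
      exact Infinite.of_injective _ this
    · rintro ⟨hinf, hvc⟩
      obtain ⟨u, v, huv, hu, hv, huniq⟩ := unique_of_vc hinf hvc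
      refine bwd ⟨u, v, huv, hu, hv, huniq, ?_⟩
      rintro Λ ⟨_, ⟨a, b, c, d, hsq, _⟩, _⟩
      exfalso
      obtain ⟨_, _, _, _, hac, hbd, hac', hbd'⟩ := hsq
      have e1 := huniq a c ⟨hac, hac', hnt a, hnt c⟩
      have e2 := huniq b d ⟨hbd, hbd', hnt b, hnt d⟩
      rename_i hab hbc hcd hda
      rcases e1 with ⟨rfl, rfl⟩ | ⟨rfl, rfl⟩ <;> rcases e2 with ⟨rfl, rfl⟩ | ⟨rfl, rfl⟩
      · exact hab.ne rfl
      · exact hbc.ne rfl
      · exact hbc.ne rfl
      · exact hab.ne rfl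

end Pool.Agent.Results.MP_7fb950_al.QuasiLine
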